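import Mathlib

set_option autoImplicit false

/-!
# The coefficients of `RB_n(1221; q)` stabilize

For `n ≥ 2 k + 3` the map which repeats the last letter is a bijection from the set of the
`1221`-avoiding restricted growth functions of length `n` with `rb = k` to the corresponding set for
the length `n + 1`.
-/

namespace Pool.Agent.Results.MP_3ac9ea_co.Stabilizes

/-- `w` is a restricted growth function: every letter is positive and at most one more than the
maximum of the previous letters (which is `0` when there are none, so the first letter is `1`). -/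
def IsRGF (w : List ℕ) : Prop :=
  ∀ i (h : i < w.length), 1 ≤ w[i] ∧ w[i] ≤ 1 + (w.take i).foldr max 0

/-- `w` avoids `1221`: no subword `x y y x` with `x < y`. -/
def Avoids1221 (w : List ℕ) : Prop := ∀ x y : ℕ, x < y → ¬ List.Sublist [x, y, y, x] w

/-- `rb w`: the sum over the letters of `w` of the number of distinct larger letters which occur to
the right of it. -/
def rb : List ℕ → ℕ
  | [] => 0
  | x :: w => (w.toFinset.filter fun z => x < z).card + rb w

/-- `R_n(1221)`, the set of the `1221`-avoiding restricted growth functions of length `n`. -/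
def R1221 (n : ℕ) : Set (List ℕ) := {w | w.length = n ∧ IsRGF w ∧ Avoids1221 w}

lemma isRGF_le {w : List ℕ} (h : IsRGF w) : ∀ i (hi : i < w.length), w[i] ≤ i + 1 := by
  intro i
  induction i using Nat.strong_induction_on with
  | _ i ih =>
    intro hi
    have h1 := (h i hi).2
    have h2 : ∀ l : List ℕ, (∀ x ∈ l, x ≤ i) → l.foldr max 0 ≤ i := by
      intro l
      induction l with
      | nil => simp
      | cons y l ihl =>
        intro hl
        simp only [List.foldr_cons]
        exact max_le (hl y (by simp)) (ihl fun x hx => hl x (by simp [hx]))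
    have h3 := h2 (w.take i) (by
      intro x hx
      obtain ⟨j, hj, rfl⟩ := List.getElem_of_mem hx
      rw [List.length_take] at hj
      rw [List.getElem_take]
      have := ih j (by omega) (by omega)
      omega)
    omega

lemma R1221_finite (n : ℕ) : (R1221 n).Finite := by
  have h1 : ({l : List (Fin (n + 2)) | l.length = n}).Finite := List.finite_length_eq _ n
  refine (h1.image (List.map Fin.val)).subset ?_
  rintro w ⟨hw, hr, -⟩
  have h2 : ∀ x ∈ w, x < n + 2 := by
    intro x hx
    obtain ⟨i, hi, rfl⟩ := List.getElem_of_mem hx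
    have := isRGF_le hr i hi
    omega
  refine ⟨w.attach.map (fun x => ⟨x.1, h2 x.1 x.2⟩), ?_, ?_⟩
  · simp [hw]
  · rw [List.map_map]
    have : (Fin.val ∘ fun x : {x // x ∈ w} => (⟨x.1, h2 x.1 x.2⟩ : Fin (n + 2))) =
        Subtype.val := rfl
    rw [this, List.attach_map_subtype_val]

/-- The polynomial `RB_n(1221; q)`, the sum of `q^(rb w)` over `w ∈ R_n(1221)`. -/
noncomputable def RB (n : ℕ) : Polynomial ℕ :=
  ∑ w ∈ (R1221_finite n).toFinset, Polynomial.X ^ rb w

/-- The set of the `1221`-avoiding restricted growth functions of length `n` with `rb = k`. Its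
number of elements is the coefficient of `q^k` in `RB_n(1221; q)`. -/
def S (n k : ℕ) : Set (List ℕ) := {w | w.length = n ∧ IsRGF w ∧ Avoids1221 w ∧ rb w = k}

lemma coeff_eq (n k : ℕ) : (RB n).coeff k = (S n k).ncard := by
  classical
  unfold RB
  rw [Polynomial.finset_sum_coeff]
  simp only [Polynomial.coeff_X_pow]
  rw [← Finset.card_filter]
  rw [← Set.ncard_coe_finset]
  congr 1
  ext w
  simp only [Finset.coe_filter, Set.Finite.mem_toFinset, R1221, S, Set.mem_setOf_eq]
  constructor
  · rintro ⟨⟨h1, h2, h3⟩, h4⟩
    exact ⟨h1, h2, h3, h4.symm⟩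
  · rintro ⟨h1, h2, h3, h4⟩
    exact ⟨⟨h1, h2, h3⟩, h4.symm⟩

lemma isRGF_snoc (w : List ℕ) (y : ℕ) :
    IsRGF (w ++ [y]) ↔ IsRGF w ∧ 1 ≤ y ∧ y ≤ 1 + w.foldr max 0 := by
  constructor
  · intro h
    refine ⟨?_, ?_⟩
    · intro i hi
      have := h i (by simp; omega)
      rw [List.getElem_append_left hi, List.take_append_of_le_length hi.le] at this
      exact this
    · have := h w.length (by simp)
      simpa using this
  · rintro ⟨h1, h2⟩ i hi
    rcases lt_or_ge i w.length with h | h
    · rw [List.getElem_append_left h, List.take_append_of_le_length h.le]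
      exact h1 i h
    · have : i = w.length := by
        simp at hi
        omega
      subst this
      simpa using h2

lemma foldr_max_append (l : List ℕ) (x : ℕ) : (l ++ [x]).foldr max 0 = max (l.foldr max 0) x := by
  induction l with
  | nil => simp
  | cons y l ih => simp only [List.cons_append, List.foldr_cons, ih, max_assoc]

lemma le_max_of_mem {l : List ℕ} {x : ℕ} (h : x ∈ l) : x ≤ l.foldr max 0 := by
  induction l with
  | nil => simp at h
  | cons y l ih =>
    rcases List.mem_cons.1 h with rfl | h
    · simp
    · simp only [List.foldr_cons]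
      exact (ih h).trans (le_max_right _ _)

/-- all values between one and the maximum occur -/
lemma mem_of_le (w : List ℕ) : IsRGF w → ∀ x, 1 ≤ x → x ≤ w.foldr max 0 → x ∈ w := by
  induction w using List.reverseRecOn with
  | nil => intro _ x h1 h2; simp at h2; omega
  | append_singleton w y ih =>
    intro h x h1 h2
    rw [isRGF_snoc] at h
    rw [foldr_max_append] at h2
    rw [List.mem_append]
    rcases le_or_gt x (w.foldr max 0) with h3 | h3
    · exact Or.inl (ih h.1 x h1 h3)
    · right
      have : x = y := by omega
      simp [this]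

lemma isRGF_prefix (w v : List ℕ) (h : IsRGF (w ++ v)) : IsRGF w := by
  intro i hi
  have := h i (by simp; omega)
  rw [List.getElem_append_left hi, List.take_append_of_le_length hi.le] at this
  exact this

lemma one_le {w : List ℕ} (h : IsRGF w) {x : ℕ} (hx : x ∈ w) : 1 ≤ x := by
  obtain ⟨i, hi, rfl⟩ := List.getElem_of_mem hx
  exact (h i hi).1

lemma cons_sublist {w : List ℕ} (h : IsRGF w) {x y : ℕ} {l : List ℕ}
    (hl : List.Sublist (y :: l) w) (hx : 1 ≤ x) (hxy : x < y) : List.Sublist (x :: y :: l) w := by
  rw [List.cons_sublist_iff] at hl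
  obtain ⟨r1, r2, rfl, hy, hl⟩ := hl
  obtain ⟨a, b, rfl⟩ := List.append_of_mem hy
  have h1 : IsRGF (a ++ [y]) := by
    apply isRGF_prefix (a ++ [y]) (b ++ r2)
    simpa using h
  rw [isRGF_snoc] at h1
  have h2 : x ∈ a := mem_of_le a h1.1 x hx (by omega)
  have h3 : List.Sublist [x] a := List.singleton_sublist.2 h2
  have h4 : List.Sublist (y :: l) (y :: b ++ r2) := by
    rw [List.cons_append]
    exact (hl.trans (List.sublist_append_right b r2)).cons_cons y
  have h5 := h3.append h4
  simpa using h5

lemma avoids_snoc (w : List ℕ) (y : ℕ) :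
    Avoids1221 (w ++ [y]) ↔ Avoids1221 w ∧ ∀ z, y < z → ¬ List.Sublist [y, z, z] w := by
  constructor
  · intro h
    refine ⟨fun a b hab hs => h a b hab (hs.trans (List.sublist_append_left _ _)), ?_⟩
    intro z hz hs
    have := hs.append (List.Sublist.refl [y])
    exact h y z hz (by simpa using this)
  · rintro ⟨h1, h2⟩ a b hab hs
    have h3 : List.Sublist (y :: w.reverse) (y :: w.reverse) := List.Sublist.refl _
    have h4 : List.Sublist [a, b, b, a] (y :: w.reverse) := by
      have := List.reverse_sublist.2 hs
      simpa using this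
    rw [List.sublist_cons_iff] at h4
    rcases h4 with h4 | ⟨r, h5, h6⟩
    · apply h1 a b hab
      have := List.reverse_sublist.2 h4
      simpa using this
    · simp only [List.cons.injEq] at h5
      obtain ⟨h7, h8⟩ := h5
      subst h7
      rw [← h8] at h6
      apply h2 b hab
      have := List.reverse_sublist.2 h6
      simpa using this

/-- number of letters smaller than `y` without a `y` to the right -/
def D (y : ℕ) : List ℕ → ℕ
  | [] => 0
  | x :: w => (if x < y ∧ y ∉ w then 1 else 0) + D y w

lemma rb_snoc (w : List ℕ) (y : ℕ) : rb (w ++ [y]) = rb w + D y w := by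
  induction w with
  | nil => simp [rb, D]
  | cons x w ih =>
    simp only [List.cons_append, rb, D, ih]
    have : ((w ++ [y]).toFinset.filter fun z => x < z).card =
        (w.toFinset.filter fun z => x < z).card + if x < y ∧ y ∉ w then 1 else 0 := by
      have h1 : (w ++ [y]).toFinset = insert y w.toFinset := by
        ext z
        simp
      rw [h1, Finset.filter_insert]
      split_ifs with h2 h3 h3
      · rw [Finset.card_insert_of_notMem]
        simp [h3.2]
      · have : y ∈ w := by
          by_contra h4
          exact h3 ⟨h2, h4⟩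
        rw [Finset.insert_eq_of_mem]
        · rfl
        · simp [this, h2]
      · exact absurd h3.1 h2
      · rfl
    rw [this]
    ring

lemma D_snoc (w : List ℕ) (y : ℕ) : D y (w ++ [y]) = 0 := by
  induction w with
  | nil => simp [D]
  | cons x w ih =>
    simp [D, ih]

/-- letters without a larger letter to the right -/
def Zl : List ℕ → List ℕ
  | [] => []
  | x :: w => if ∃ z ∈ w, x < z then Zl w else x :: Zl w

lemma Zl_sublist (w : List ℕ) : List.Sublist (Zl w) w := by
  induction w with
  | nil => exact List.Sublist.refl _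
  | cons x w ih =>
    unfold Zl
    split_ifs
    · exact ih.cons x
    · exact ih.cons_cons x

lemma length_le (w : List ℕ) : w.length ≤ (Zl w).length + rb w := by
  induction w with
  | nil => simp [Zl, rb]
  | cons x w ih =>
    unfold Zl rb
    split_ifs with h
    · obtain ⟨z, hz, hxz⟩ := h
      have : 1 ≤ (w.toFinset.filter fun z => x < z).card := by
        rw [Nat.one_le_iff_ne_zero, Finset.card_ne_zero]
        exact ⟨z, by simp [hz, hxz]⟩
      simp only [List.length_cons]
      omega
    · simp only [List.length_cons]
      omega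

lemma count_Zl (w : List ℕ) {x y : ℕ} (hxy : y < x) : (Zl (w ++ [x, y])).count y = 1 := by
  induction w with
  | nil =>
    simp only [List.nil_append, Zl]
    simp [hxy.not_gt, hxy.ne', List.count_cons]
  | cons z w ih =>
    rw [List.cons_append]
    unfold Zl
    split_ifs with h
    · exact ih
    · have : z ≠ y := by
        rintro rfl
        exact h ⟨x, by simp, hxy⟩
      rw [List.count_cons_of_ne this]
      exact ih

/-- the elements of `Zl` are at least the last letter -/
lemma Zl_ge (w : List ℕ) (y : ℕ) : ∀ z ∈ Zl (w ++ [y]), y ≤ z := by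
  induction w with
  | nil => simp [Zl]
  | cons x w ih =>
    intro z hz
    rw [List.cons_append] at hz
    unfold Zl at hz
    split_ifs at hz with h
    · exact ih z hz
    · rcases List.mem_cons.1 hz with rfl | hz
      · by_contra h2
        exact h ⟨y, by simp, by omega⟩
      · exact ih z hz

lemma max_le_rb {w : List ℕ} (h : IsRGF w) {z : ℕ} (hz : z ∈ w) : z ≤ rb w + 1 := by
  cases w with
  | nil => simp at hz
  | cons x w =>
    have hx : x = 1 := by
      have := h 0 (by simp)
      simp at this
      omega
    subst hx
    have h1 : Finset.Ioc 1 z ⊆ (w.toFinset.filter fun z => 1 < z) := by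
      intro t ht
      rw [Finset.mem_Ioc] at ht
      have h2 : t ∈ 1 :: w := mem_of_le _ h t (by omega) (ht.2.trans (le_max_of_mem hz))
      rcases List.mem_cons.1 h2 with h3 | h3
      · omega
      · simp [h3, ht.1]
    have h2 := Finset.card_le_card h1
    rw [Nat.card_Ioc] at h2
    simp only [rb]
    omega

lemma main {w : List ℕ} {x y : ℕ} (h : IsRGF (w ++ [x, y])) (ha : Avoids1221 (w ++ [x, y]))
    (hlen : 2 * rb (w ++ [x, y]) + 4 ≤ (w ++ [x, y]).length) : x = y := by
  set u := w ++ [x, y] with hu
  have hu' : u = (w ++ [x]) ++ [y] := by rw [hu]; simp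
  by_contra hne
  have h1 : ((Zl u).filter (fun z => z ≠ y)).Nodup := by
    rw [List.nodup_iff_sublist]
    intro z hz
    have hzy : z ≠ y := by
      have : z ∈ (Zl u).filter (fun z => z ≠ y) := hz.subset (by simp)
      simpa using (List.mem_filter.1 this).2
    have hz1 : List.Sublist [z, z] (Zl u) := hz.trans List.filter_sublist
    have hz2 : y ≤ z := by
      rw [hu'] at hz1
      exact Zl_ge _ _ z (hz1.subset (by simp))
    have hz3 : List.Sublist [z, z] (w ++ [x]) := by
      have h2 : List.Sublist [z, z] ((w ++ [x]) ++ [y]) := by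
        rw [← hu']
        exact hz1.trans (Zl_sublist u)
      have h4 : List.Sublist [z, z] (y :: (w ++ [x]).reverse) := by
        have := List.reverse_sublist.2 h2
        simpa using this
      rw [List.sublist_cons_iff] at h4
      rcases h4 with h4 | ⟨r, h5, h6⟩
      · have := List.reverse_sublist.2 h4
        simpa using this
      · simp only [List.cons.injEq] at h5
        exact absurd h5.1 hzy
    have hy1 : 1 ≤ y := one_le h (by rw [hu]; simp)
    have hR : IsRGF (w ++ [x]) := isRGF_prefix (w ++ [x]) [y] (by rw [← hu']; exact h)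
    have h5 := cons_sublist hR hz3 hy1 (lt_of_le_of_ne hz2 (Ne.symm hzy))
    rw [hu', avoids_snoc] at ha
    exact ha.2 z (lt_of_le_of_ne hz2 (Ne.symm hzy)) h5
  have h2 : ((Zl u).filter (fun z => z ≠ y)).length ≤ rb u + 1 := by
    have h3 : ((Zl u).filter (fun z => z ≠ y)).toFinset ⊆ Finset.Icc 1 (rb u + 1) := by
      intro z hz
      rw [List.mem_toFinset] at hz
      have hz1 : z ∈ u := (Zl_sublist u).subset (List.mem_filter.1 hz).1
      rw [Finset.mem_Icc]
      exact ⟨one_le h hz1, max_le_rb h hz1⟩
    have h4 := Finset.card_le_card h3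
    rw [List.toFinset_card_of_nodup h1, Nat.card_Icc] at h4
    omega
  have h3 : (Zl u).length = (Zl u).count y + ((Zl u).filter (fun z => z ≠ y)).length := by
    rw [List.length_eq_countP_add_countP (fun z => z == y), List.count]
    congr 1
    rw [← List.countP_eq_length_filter]
    apply List.countP_congr
    intro z _
    simp
  have h4 := length_le u
  have h5 : 3 ≤ (Zl u).count y := by omega
  rcases lt_or_gt_of_ne hne with hlt | hgt
  · have h6 : 3 ≤ u.count y := h5.trans ((Zl_sublist u).count_le y)
    have h7 : 2 ≤ w.count y := by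
      rw [hu, List.count_append] at h6
      have : List.count y [x, y] = 1 := by
        simp [hne]
      omega
    have h8 : List.Sublist [y, y] w := by
      have := List.replicate_sublist_iff.2 h7
      simpa [List.replicate] using this
    have hx1 : 1 ≤ x := one_le h (by rw [hu]; simp)
    have hR : IsRGF w := isRGF_prefix w [x, y] h
    have h9 := cons_sublist hR h8 hx1 hlt
    have h10 := h9.append (List.Sublist.refl [x])
    have h11 : Avoids1221 (w ++ [x]) := by
      rw [hu', avoids_snoc] at ha
      exact ha.1
    exact h11 x y hlt (by simpa using h10)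
  · have := count_Zl w hgt
    rw [← hu] at this
    omega

lemma card_succ (n k : ℕ) (hn : 2 * k + 3 ≤ n) : (S n k).ncard = (S (n + 1) k).ncard := by
  apply Set.ncard_congr (fun w _ => w ++ [w.getLastD 0])
  · rintro w ⟨h1, h2, h3, h4⟩
    have hne : w ≠ [] := by
      rintro rfl
      simp at h1
      omega
    obtain ⟨v, y, rfl⟩ : ∃ v y, w = v ++ [y] := ⟨w.dropLast, w.getLast hne, (List.dropLast_append_getLast hne).symm⟩
    have hy : (v ++ [y]).getLastD 0 = y := by simp
    rw [hy]
    refine ⟨by simpa using h1, ?_, ?_, ?_⟩
    · rw [isRGF_snoc]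
      refine ⟨h2, one_le h2 (by simp), ?_⟩
      have := le_max_of_mem (l := v ++ [y]) (x := y) (by simp)
      omega
    · rw [avoids_snoc]
      refine ⟨h3, ?_⟩
      intro z hz hs
      rw [avoids_snoc] at h3
      apply h3.2 z hz
      have h4 : List.Sublist [z, z, y] (y :: v.reverse) := by
        have := List.reverse_sublist.2 hs
        simpa using this
      rw [List.sublist_cons_iff] at h4
      rcases h4 with h4 | ⟨r, h5, h6⟩
      · have := List.reverse_sublist.2 h4
        simpa using this
      · simp only [List.cons.injEq] at h5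
        omega
    · rw [rb_snoc, D_snoc, h4, Nat.add_zero]
  · intro a b ha hb hab
    exact (List.append_inj' hab rfl).1
  · rintro u ⟨h1, h2, h3, h4⟩
    have hne : u ≠ [] := by
      rintro rfl
      simp at h1
    obtain ⟨v, y, rfl⟩ : ∃ v y, u = v ++ [y] := ⟨u.dropLast, u.getLast hne, (List.dropLast_append_getLast hne).symm⟩
    have hne2 : v ≠ [] := by
      rintro rfl
      simp at h1
      omega
    obtain ⟨t, x, rfl⟩ : ∃ t x, v = t ++ [x] := ⟨v.dropLast, v.getLast hne2, (List.dropLast_append_getLast hne2).symm⟩
    have hxy : x = y := by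
      have e : t ++ [x] ++ [y] = t ++ [x, y] := by simp
      rw [e] at h1 h2 h3 h4
      apply main h2 h3
      rw [h4, h1]
      omega
    subst hxy
    refine ⟨t ++ [x], ⟨by simpa using h1, ?_, ?_, ?_⟩, by simp⟩
    · exact isRGF_prefix _ _ h2
    · rw [avoids_snoc] at h3
      exact h3.1
    · rw [rb_snoc, D_snoc] at h4
      exact h4

/-- **Q1 holds**: for every `k` the coefficient of `q^k` in `RB_n(1221; q)` takes the same value for
all `n ≥ N_k`; one can take `N_k = 2 k + 3`. -/
theorem result (k : ℕ) : ∀ n : ℕ, 2 * k + 3 ≤ n → (RB n).coeff k = (RB (2 * k + 3)).coeff k := by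
  intro n hn
  rw [coeff_eq, coeff_eq]
  induction n, hn using Nat.le_induction with
  | base => rfl
  | succ n hn ih => rw [← card_succ n k hn, ih]

end Pool.Agent.Results.MP_3ac9ea_co.Stabilizes
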